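import Mathlib
import Pool.Agent.H792R3.Quad.Curve

/-!
# A domain with three boundary curves satisfying the quadrature identity

Negative answer to Q2: there is a bounded domain in the plane, bounded by three pairwise disjoint
closed analytic Jordan curves, for which the area mean and the arc length mean of the real part
of every function holomorphic in the domain and continuous on its closure agree.
-/

set_option autoImplicit false

open MeasureTheory Set Filter Topology Metric
open scoped ENNReal NNReal Real ComplexConjugate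

namespace Pool.Agent.Results.MP_9159b8_an.ThreeBoundaryCurves

open Pool.Agent.Helper164.QD
open Pool.Agent.Helper164.Topo (frontier_image open_image)
open Pool.Agent.H792R3.Quad

/-- The quadrature identity: for every `u = Re F`, `F` holomorphic in `Ω` and continuous on the
closure of `Ω`, the area mean of `u` over `Ω` equals the arc length mean of `u` over the boundary
`Γ = frontier Ω`.  Arc length on `Γ` is the one-dimensional Hausdorff measure `μH[1]`. -/
def QuadratureIdentity (Ω : Set ℂ) : Prop :=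
  ∀ F : ℂ → ℂ, ContinuousOn F (closure Ω) → DifferentiableOn ℂ F Ω →
    (volume Ω).toReal⁻¹ * ∫ z in Ω, (F z).re
      = (μH[1] (frontier Ω)).toReal⁻¹ * ∫ z in frontier Ω, (F z).re ∂μH[1]

/-- A union of three disjoint nonempty closed sets is not a union of two connected sets. -/
lemma not_two {Γ : Fin 3 → Set ℂ} (hcl : ∀ j, IsClosed (Γ j)) (hne : ∀ j, (Γ j).Nonempty)
    (hdis : ∀ i j, i ≠ j → Disjoint (Γ i) (Γ j)) {A B : Set ℂ} (hA : IsPreconnected A)
    (hB : IsPreconnected B) (hAB : (⋃ j, Γ j) = A ∪ B) : False := by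
  have hone : ∀ S : Set ℂ, IsPreconnected S → S ⊆ ⋃ j, Γ j → ∃ j, S ⊆ Γ j := by
    intro S hpre hs
    rcases S.eq_empty_or_nonempty with rfl | ⟨p, hp⟩
    · exact ⟨0, empty_subset _⟩
    have hpf := hs hp
    rw [mem_iUnion] at hpf
    obtain ⟨j, hj⟩ := hpf
    refine ⟨j, ?_⟩
    have hcl2 : IsClosed (⋃ k : {k : Fin 3 // k ≠ j}, Γ k) :=
      isClosed_iUnion_of_finite (fun k => hcl k)
    have hcov : S ⊆ Γ j ∪ ⋃ k : {k : Fin 3 // k ≠ j}, Γ k := by
      intro z hz
      have := hs hz
      rw [mem_iUnion] at this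
      obtain ⟨k, hk⟩ := this
      by_cases hkj : k = j
      · left; rwa [← hkj]
      · right; exact mem_iUnion.mpr ⟨⟨k, hkj⟩, hk⟩
    have hdisj : S ∩ (Γ j ∩ ⋃ k : {k : Fin 3 // k ≠ j}, Γ k) = ∅ := by
      apply eq_empty_of_forall_notMem
      rintro z ⟨-, hz1, hz2⟩
      obtain ⟨⟨k, hk⟩, hz3⟩ := mem_iUnion.mp hz2
      exact (disjoint_left.mp (hdis k j hk)) hz3 hz1
    rcases isPreconnected_iff_subset_of_disjoint_closed.mp hpre _ _ (hcl j) hcl2 hcov hdisj
      with h | h
    · exact h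
    · exfalso
      obtain ⟨⟨k, hk⟩, hz3⟩ := mem_iUnion.mp (h hp)
      exact (disjoint_left.mp (hdis k j hk)) hz3 hj
  obtain ⟨j₁, hj₁⟩ := hone A hA (by rw [hAB]; exact subset_union_left)
  obtain ⟨j₂, hj₂⟩ := hone B hB (by rw [hAB]; exact subset_union_right)
  obtain ⟨k, hk1, hk2⟩ : ∃ k : Fin 3, k ≠ j₁ ∧ k ≠ j₂ := by
    clear * - j₁ j₂
    revert j₁ j₂
    decide
  obtain ⟨p, hp⟩ := hne k
  have hpf : p ∈ A ∪ B := by rw [← hAB]; exact mem_iUnion.mpr ⟨k, hp⟩
  rcases hpf with h | h
  · exact (disjoint_left.mp (hdis k j₁ hk1)) hp (hj₁ h)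
  · exact (disjoint_left.mp (hdis k j₂ hk2)) hp (hj₂ h)

/-- **Negative answer to Q2.** There is a bounded domain `Ω` whose boundary is the union of three
pairwise disjoint closed Jordan curves `Γ 0`, `Γ 1`, `Γ 2` (each real analytic with nonvanishing
derivative, of period `1` and injective on `[0, 1)`), which satisfies the quadrature identity.
In particular the boundary is not the union of two connected sets. -/
theorem result : ∃ (Ω : Set ℂ) (Γ : Fin 3 → ℝ → ℂ),
    IsOpen Ω ∧ IsConnected Ω ∧ Bornology.IsBounded Ω ∧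
    (∀ j, AnalyticOnNhd ℝ (Γ j) univ) ∧ (∀ j, Function.Periodic (Γ j) 1) ∧
    (∀ j, InjOn (Γ j) (Ico 0 1)) ∧ (∀ j t, deriv (Γ j) t ≠ 0) ∧
    (∀ i j, i ≠ j → Disjoint (range (Γ i)) (range (Γ j))) ∧
    frontier Ω = ⋃ j, range (Γ j) ∧
    (¬ ∃ A B : Set ℂ, IsPreconnected A ∧ IsPreconnected B ∧ frontier Ω = A ∪ B) ∧
    0 < μH[1] (frontier Ω) ∧ μH[1] (frontier Ω) < ⊤ ∧
    QuadratureIdentity Ω := by
  obtain ⟨d, ρ, c, f, k, G, hd, hd', hρ, hc, hf, hkd, hGd, hk0, hinj, hkc, hGc, rel0, rel1, rel2⟩ :=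
    partA2
  have hWo := Wr_open d ρ
  have hRW : Reg d ρ ⊆ Wr d ρ := fun z hz => ⟨by linarith [hz.1], by linarith [hz.2.1],
    by linarith [hz.2.2]⟩
  have hDW : Dom d ρ ⊆ Wr d ρ := (Dom_sub_Reg d ρ).trans hRW
  have hclD := closure_Dom hd hd' hρ
  have hfd : DifferentiableOn ℂ f (Wr d ρ) := fun z hz =>
    (hf z hz).differentiableAt.differentiableWithinAt
  have hfc : ContinuousOn f (Reg d ρ) := hfd.continuousOn.mono hRW
  have hinjR : InjOn f (Reg d ρ) := hinj.mono hRW
  have hsph : ∀ j, sphere (cen j) (rad d ρ j) ⊆ Reg d ρ := by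
    intro j z hz
    have : z ∈ Reg d ρ \ Dom d ρ := by
      rw [bdry_eq hd hd' hρ]; exact mem_iUnion.mpr ⟨j, hz⟩
    exact this.1
  have hcurR : ∀ j t, cur d ρ j t ∈ Reg d ρ := fun j t => hsph j (cur_mem hd hρ j t)
  have hcurW : ∀ j t, cur d ρ j t ∈ Wr d ρ := fun j t => hRW (hcurR j t)
  have hopen : IsOpen (f '' Dom d ρ) := open_image hWo (Dom_open d ρ) hDW hf hk0
  have hrange : ∀ j, range (fun t => f (cur d ρ j t)) = f '' sphere (cen j) (rad d ρ j) := by
    intro j
    rw [← range_cur hd hρ j, ← range_comp]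
    rfl
  have hder : ∀ j t, HasDerivAt (fun t => f (cur d ρ j t))
      (((2 * π : ℝ) * (circleMap 0 (rad d ρ j) (2 * π * t) * Complex.I)) * k (cur d ρ j t)) t := by
    intro j t
    exact (hf _ (hcurW j t)).scomp t (cur_deriv j t)
  have hdisS : ∀ i j, i ≠ j → Disjoint (f '' sphere (cen i) (rad d ρ i))
      (f '' sphere (cen j) (rad d ρ j)) := by
    intro i j hij
    rw [disjoint_left]
    rintro _ ⟨z, hz, rfl⟩ ⟨w, hw, he⟩
    have := hinjR (hsph j hw) (hsph i hz) he
    rw [this] at hw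
    exact (disjoint_left.mp (sph_disjoint hd hd' hρ i j hij)) hz hw
  have hcl : closure (f '' Dom d ρ) = f '' Reg d ρ := by
    rw [← hclD]
    apply Subset.antisymm
    · refine closure_minimal (image_mono subset_closure) ?_
      rw [hclD]
      exact ((Reg_compact d ρ).image_of_continuousOn hfc).isClosed
    · exact ContinuousOn.image_closure (by rw [hclD]; exact hfc)
  have hfrS : frontier (f '' Dom d ρ) = ⋃ j, f '' sphere (cen j) (rad d ρ j) := by
    rw [frontier_image (by rw [hclD]; exact hfc) (by rw [hclD]; exact hinjR)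
      (by rw [hclD]; exact Reg_compact d ρ) hopen, hclD, bdry_eq hd hd' hρ, image_iUnion]
  have hScomp : ∀ j, IsCompact (f '' sphere (cen j) (rad d ρ j)) := fun j =>
    (isCompact_sphere _ _).image_of_continuousOn (hfc.mono (hsph j))
  have hSm : ∀ j, MeasurableSet (f '' sphere (cen j) (rad d ρ j)) := fun j =>
    (hScomp j).isClosed.measurableSet
  have hbdd : Bornology.IsBounded (f '' Dom d ρ) :=
    ((Reg_compact d ρ).image_of_continuousOn hfc).isBounded.subset (image_mono (Dom_sub_Reg d ρ))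
  -- the identity in complex form
  have hquad : ∀ F : ℂ → ℂ, ContinuousOn F (f '' Reg d ρ) → DifferentiableOn ℂ F (f '' Dom d ρ) →
      IntegrableOn F (frontier (f '' Dom d ρ)) (μH[1] : Measure ℂ) ∧
      ∫ z in f '' Dom d ρ, F z = c * ∫ z in frontier (f '' Dom d ρ), F z ∂μH[1] := by
    intro F hF hFd
    have hcurve : ∀ j, IntegrableOn F (f '' sphere (cen j) (rad d ρ j)) (μH[1] : Measure ℂ) ∧
        ∫ z in f '' sphere (cen j) (rad d ρ j), F z ∂μH[1]
          = ∫ t in (-π)..π, ((rad d ρ j * ‖k (cen j + rad d ρ j * ex t)‖ : ℝ) : ℂ)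
            * F (gam f (cen j) (rad d ρ j) t) := fun j =>
      curve hWo hf hkd.continuousOn hinj (rad_pos hd hρ j) ((hsph j).trans hRW)
        (hF.mono (image_mono (hsph j)))
    have hint : IntegrableOn F (frontier (f '' Dom d ρ)) (μH[1] : Measure ℂ) := by
      rw [hfrS]
      exact integrableOn_finite_iUnion.mpr (fun j => (hcurve j).1)
    refine ⟨hint, ?_⟩
    rw [hfrS, integral_iUnion_fintype hSm (fun i j hij => hdisS i j hij) (fun j => (hcurve j).1),
      key hd hd' hρ hf hkd hGd hinj rel0 rel1 rel2 hF hFd, Fin.sum_univ_three,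
      (hcurve 0).2, (hcurve 1).2, (hcurve 2).2]
    rfl
  -- area and length
  have hAfin : volume (f '' Dom d ρ) < ⊤ := hbdd.measure_lt_top
  have hne : (f '' Dom d ρ).Nonempty := (Dom_connected hd hd' hρ).nonempty.image f
  have hApos : 0 < (volume (f '' Dom d ρ)).toReal :=
    ENNReal.toReal_pos (hopen.measure_pos volume hne).ne' hAfin.ne
  have hAP : (volume (f '' Dom d ρ)).toReal
      = c * (μH[1] (frontier (f '' Dom d ρ))).toReal := by
    have h1 := (hquad (fun _ => 1) continuousOn_const (differentiableOn_const 1)).2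
    rw [integral_const, integral_const, Complex.real_smul, Complex.real_smul, mul_one, mul_one,
      measureReal_restrict_apply_univ, measureReal_restrict_apply_univ] at h1
    exact_mod_cast h1
  have hPpos : 0 < (μH[1] (frontier (f '' Dom d ρ))).toReal := by
    rw [hAP] at hApos
    exact pos_of_mul_pos_right hApos hc.le
  obtain ⟨hP1, hP2⟩ := ENNReal.toReal_pos_iff.mp hPpos
  refine ⟨f '' Dom d ρ, fun j t => f (cur d ρ j t), hopen, ?_, hbdd, ?_, ?_, ?_, ?_, ?_, ?_, ?_,
    hP1, hP2, ?_⟩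
  · exact (Dom_connected hd hd' hρ).image f (hfc.mono (Dom_sub_Reg d ρ))
  · intro j t _
    have h1 : AnalyticAt ℂ f (cur d ρ j t) := hfd.analyticAt (hWo.mem_nhds (hcurW j t))
    have h2 : AnalyticAt ℝ f (cur d ρ j t) := h1.restrictScalars
    exact AnalyticAt.comp (f := cur d ρ j) (g := f) h2 (cur_analytic j t)
  · intro j t
    show f (cur d ρ j (t + 1)) = f (cur d ρ j t)
    rw [cur_periodic j t]
  · intro j s hs t ht he
    exact cur_inj hd hρ j hs ht (hinjR (hcurR j s) (hcurR j t) he)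
  · intro j t h0
    rw [(hder j t).deriv] at h0
    have h1 : circleMap 0 (rad d ρ j) (2 * π * t) ≠ 0 := circleMap_ne_center (rad_pos hd hρ j).ne'
    have h2 := hk0 _ (hcurW j t)
    have h3 : ((2 * π : ℝ) : ℂ) ≠ 0 := by
      exact_mod_cast Real.two_pi_pos.ne'
    exact (mul_ne_zero (mul_ne_zero h3 (mul_ne_zero h1 Complex.I_ne_zero)) h2) h0
  · intro i j hij
    show Disjoint (range (fun t => f (cur d ρ i t))) (range (fun t => f (cur d ρ j t)))
    rw [hrange, hrange]
    exact hdisS i j hij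
  · rw [hfrS]
    exact iUnion_congr (fun j => (hrange j).symm)
  · rintro ⟨A, B, hA, hB, hAB⟩
    rw [hfrS] at hAB
    refine not_two (fun j => (hScomp j).isClosed) (fun j => ?_) hdisS hA hB hAB
    rw [← hrange j]
    exact range_nonempty _
  · intro F hF hFd
    rw [hcl] at hF
    obtain ⟨h1, h2⟩ := hquad F hF hFd
    have h3 : IntegrableOn F (f '' Dom d ρ) :=
      (hF.integrableOn_compact ((Reg_compact d ρ).image_of_continuousOn hfc)).mono_set
        (image_mono (Dom_sub_Reg d ρ))
    have e1 : ∫ z in f '' Dom d ρ, (F z).re = (∫ z in f '' Dom d ρ, F z).re :=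
      Complex.reCLM.integral_comp_comm h3
    have e2 : ∫ z in frontier (f '' Dom d ρ), (F z).re ∂μH[1]
        = (∫ z in frontier (f '' Dom d ρ), F z ∂μH[1]).re :=
      Complex.reCLM.integral_comp_comm h1
    rw [e1, e2, h2, hAP, Complex.re_ofReal_mul]
    have hc' := hc.ne'
    have hP' := hPpos.ne'
    field_simp

end Pool.Agent.Results.MP_9159b8_an.ThreeBoundaryCurves
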